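import Pool.Agent.Q282.TW.Stm

set_option autoImplicit false

/-!
# Sums over the monic polynomials of a degree
-/

open Polynomial

namespace Pool.Agent.Q34.TW

open Q282TW

variable {k : Type} [Field k]

theorem pol_coeff {n : ℕ} (c : Fin n → k) (i : Fin n) : (pol c).coeff i = c i := by
  unfold pol
  rw [finsetSum_coeff, Finset.sum_eq_single i]
  · rw [coeff_C_mul, coeff_X_pow, if_pos rfl, mul_one]
  · intro j _ hj
    rw [coeff_C_mul, coeff_X_pow, if_neg, mul_zero]
    intro h
    exact hj (Fin.ext h.symm)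
  · intro h
    exact absurd (Finset.mem_univ _) h

theorem pol_degree {n : ℕ} (c : Fin n → k) : (pol c).degree < n := by
  unfold pol
  rw [degree_lt_iff_coeff_zero]
  intro m hm
  rw [finsetSum_coeff]
  refine Finset.sum_eq_zero fun j _ => ?_
  rw [coeff_C_mul, coeff_X_pow, if_neg, mul_zero]
  have := j.2
  omega

theorem pol_inj {n : ℕ} : Function.Injective (pol : (Fin n → k) → k[X]) := by
  intro c c' h
  funext i
  rw [← pol_coeff c i, ← pol_coeff c' i, h]

theorem exists_pol {n : ℕ} {f : k[X]} (hf : f.degree < n) : ∃ c : Fin n → k, pol c = f := by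
  refine ⟨fun i => f.coeff i, ?_⟩
  ext m
  by_cases hm : m < n
  · exact pol_coeff (fun i : Fin n => f.coeff i) ⟨m, hm⟩
  · rw [coeff_eq_zero_of_degree_lt (lt_of_lt_of_le hf (by exact_mod_cast not_lt.1 hm)),
      coeff_eq_zero_of_degree_lt (lt_of_lt_of_le (pol_degree _) (by exact_mod_cast not_lt.1 hm))]

theorem mon_monic {n : ℕ} (c : Fin n → k) : (mon c).Monic := monic_X_pow_add (pol_degree c)

theorem mon_natDegree {n : ℕ} (c : Fin n → k) : (mon c).natDegree = n := by
  apply natDegree_eq_of_degree_eq_some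
  have h : (pol c).degree < (X ^ n : k[X]).degree := by
    rw [degree_X_pow]
    exact pol_degree c
  unfold mon
  rw [degree_add_eq_left_of_degree_lt h, degree_X_pow]

theorem mon_inj {n : ℕ} : Function.Injective (mon : (Fin n → k) → k[X]) := by
  intro c c' h
  unfold mon at h
  exact pol_inj (add_left_cancel h)

theorem exists_mon {n : ℕ} {f : k[X]} (hf : f.Monic) (hn : f.natDegree = n) :
    ∃ c : Fin n → k, mon c = f := by
  have h1 : (f - X ^ n).degree < (n : WithBot ℕ) := by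
    have h2 : f.degree = (n : WithBot ℕ) := by rw [degree_eq_natDegree hf.ne_zero, hn]
    have h3 : (X ^ n : k[X]).degree = (n : WithBot ℕ) := degree_X_pow n
    refine lt_of_lt_of_le (degree_sub_lt_left (by rw [h2, h3]) hf.ne_zero ?_) (le_of_eq h2)
    rw [hf.leadingCoeff, leadingCoeff_X_pow]
  obtain ⟨c, hc⟩ := exists_pol h1
  refine ⟨c, ?_⟩
  unfold mon
  rw [hc]
  ring

variable [Fintype k]

open Classical in
/-- the monic polynomials of degree `n` -/
noncomputable def Mn (k : Type) [Field k] [Fintype k] (n : ℕ) : Finset k[X] :=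
  Finset.univ.image (mon : (Fin n → k) → k[X])

theorem mem_Mn {n : ℕ} {f : k[X]} : f ∈ Mn k n ↔ f.Monic ∧ f.natDegree = n := by
  classical
  unfold Mn
  rw [Finset.mem_image]
  constructor
  · rintro ⟨c, -, rfl⟩
    exact ⟨mon_monic c, mon_natDegree c⟩
  · rintro ⟨h1, h2⟩
    obtain ⟨c, hc⟩ := exists_mon h1 h2
    exact ⟨c, Finset.mem_univ _, hc⟩

theorem sum_mon {R : Type*} [AddCommMonoid R] {n : ℕ} (h : k[X] → R) :
    ∑ c : Fin n → k, h (mon c) = ∑ f ∈ Mn k n, h f := by
  classical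
  unfold Mn
  rw [Finset.sum_image fun _ _ _ _ hxy => mon_inj hxy]

theorem card_Mn (n : ℕ) : (Mn k n).card = Fintype.card k ^ n := by
  classical
  unfold Mn
  rw [Finset.card_image_of_injective _ mon_inj, Finset.card_univ, Fintype.card_fun, Fintype.card_fin]

/-- the multiples of a monic polynomial -/
theorem sum_dvd {R : Type*} [AddCommMonoid R] {n : ℕ} {A : k[X]} (hA : A.Monic)
    (hn : A.natDegree ≤ n) (h : k[X] → R) [DecidablePred fun f : k[X] => A ∣ f] :
    ∑ f ∈ (Mn k n).filter (fun f => A ∣ f), h f = ∑ f ∈ Mn k (n - A.natDegree), h (A * f) := by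
  symm
  refine Finset.sum_bij (fun f _ => A * f) ?_ ?_ ?_ ?_
  · intro f hf
    rw [mem_Mn] at hf
    rw [Finset.mem_filter, mem_Mn]
    refine ⟨⟨hA.mul hf.1, ?_⟩, dvd_mul_right _ _⟩
    rw [hA.natDegree_mul hf.1, hf.2]
    omega
  · intro f _ f' _ hff
    exact mul_left_cancel₀ hA.ne_zero hff
  · intro f hf
    rw [Finset.mem_filter, mem_Mn] at hf
    obtain ⟨⟨hf1, hf2⟩, f', hff⟩ := hf
    have h1 : f'.Monic := by
      rw [hff] at hf1
      exact hA.of_mul_monic_left hf1
    refine ⟨f', ?_, hff.symm⟩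
    rw [mem_Mn]
    refine ⟨h1, ?_⟩
    rw [hff, hA.natDegree_mul h1] at hf2
    omega
  · intro f _
    rfl

theorem no_dvd {n : ℕ} {A : k[X]} (hn : n < A.natDegree) {f : k[X]} (hf : f ∈ Mn k n) : ¬ A ∣ f := by
  rw [mem_Mn] at hf
  intro h
  have := natDegree_le_of_dvd h hf.1.ne_zero
  omega

omit [Fintype k] in
theorem dg_eq (S : Finset k[X]) (hS : ∀ P ∈ S, Pr P) : (∏ P ∈ S, P).natDegree = dg S := by
  unfold dg
  exact natDegree_prod_of_monic S (fun P => P) fun P hP => (hS P hP).1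

omit [Fintype k] in
theorem monic_prod (S : Finset k[X]) (hS : ∀ P ∈ S, Pr P) : (∏ P ∈ S, P).Monic :=
  monic_prod_of_monic S (fun P => P) fun P hP => (hS P hP).1

omit [Fintype k] in
theorem coprime {P Q : k[X]} (hP : Pr P) (hQ : Pr Q) (hPQ : P ≠ Q) : IsCoprime P Q := by
  rcases hP.2.coprime_iff_not_dvd.2 with h
  apply h
  intro hd
  have h1 := hP.2.associated_of_dvd hQ.2 hd
  exact hPQ (eq_of_monic_of_associated hP.1 hQ.1 h1)

omit [Fintype k] in
theorem prod_dvd_iff {T : Finset k[X]} (hT : ∀ P ∈ T, Pr P) (f : k[X]) :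
    (∏ P ∈ T, P) ∣ f ↔ ∀ P ∈ T, P ∣ f := by
  constructor
  · intro h P hP
    exact (Finset.dvd_prod_of_mem _ hP).trans h
  · intro h
    refine Finset.prod_dvd_of_coprime ?_ h
    intro P hP Q hQ hPQ
    exact coprime (hT P hP) (hT Q hQ) hPQ

end Pool.Agent.Q34.TW
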