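import Pool.Agent.Q34.TW.Van

set_option autoImplicit false

/-!
# Squarefree polynomials prime to a given polynomial
-/

open Polynomial

namespace Pool.Agent.Q34.TW

open Q282TW

variable {k : Type} [Field k] [Fintype k]

open Classical in
/-- the monic polynomials of degree `n` prime to the members of `S` -/
noncomputable def Cp (S : Finset k[X]) (n : ℕ) : Finset k[X] :=
  (Mn k n).filter fun f => ∀ P ∈ S, ¬ P ∣ f

theorem mem_Cp {S : Finset k[X]} {n : ℕ} {f : k[X]} :
    f ∈ Cp S n ↔ (f.Monic ∧ f.natDegree = n) ∧ ∀ P ∈ S, ¬ P ∣ f := by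
  classical
  unfold Cp
  rw [Finset.mem_filter, mem_Mn]

theorem card_Cp_le (S : Finset k[X]) (n : ℕ) : (Cp S n).card ≤ Fintype.card k ^ n := by
  classical
  rw [← card_Mn n]
  exact Finset.card_filter_le _ _

/-- the proportion of the polynomials prime to the members of `S` -/
noncomputable def rho (S : Finset k[X]) : ℝ := ∏ P ∈ S, (1 - ((Fintype.card k : ℝ)⁻¹) ^ P.natDegree)

theorem card_Cp {S : Finset k[X]} (hS : ∀ P ∈ S, Pr P) {n : ℕ} (hn : dg S ≤ n) :
    ((Cp S n).card : ℝ) = (Fintype.card k : ℝ) ^ n * rho S := by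
  classical
  have hq0 : (Fintype.card k : ℂ) ≠ 0 := by
    have := Fintype.card_ne_zero (α := k)
    exact_mod_cast this
  have h1 := cop k S hS n fun _ => 1
  rw [sum_mon (fun f => if ∀ P ∈ S, ¬ P ∣ f then (1 : ℂ) else 0), ← Finset.sum_filter,
    Finset.sum_const, nsmul_eq_mul, mul_one] at h1
  have h2 : S.powerset.filter (fun T => dg T ≤ n) = S.powerset := by
    apply Finset.filter_true_of_mem
    intro T hT
    refine le_trans ?_ hn
    unfold dg
    exact Finset.sum_le_sum_of_subset (Finset.mem_powerset.1 hT)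
  rw [h2] at h1
  have h3 : ∀ T ∈ S.powerset, (-1 : ℂ) ^ T.card * ∑ b : Fin (n - dg T) → k, (1 : ℂ) =
      (Fintype.card k : ℂ) ^ n * ((∏ P ∈ T, (-((Fintype.card k : ℂ)⁻¹) ^ P.natDegree)) *
        ∏ P ∈ S \ T, (1 : ℂ)) := by
    intro T hT
    have h4 : dg T ≤ n := by
      refine le_trans ?_ hn
      unfold dg
      exact Finset.sum_le_sum_of_subset (Finset.mem_powerset.1 hT)
    rw [Finset.sum_const, Finset.card_univ, Fintype.card_fun, Fintype.card_fin, nsmul_eq_mul, mul_one,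
      Finset.prod_const_one, mul_one]
    have h5 : ∏ P ∈ T, (-((Fintype.card k : ℂ)⁻¹) ^ P.natDegree) =
        (-1 : ℂ) ^ T.card * ((Fintype.card k : ℂ)⁻¹) ^ dg T := by
      have h6 : ∀ P ∈ T, (-((Fintype.card k : ℂ)⁻¹) ^ P.natDegree) =
          (-1) * ((Fintype.card k : ℂ)⁻¹) ^ P.natDegree := fun P _ => by ring
      rw [Finset.prod_congr rfl h6, Finset.prod_mul_distrib, Finset.prod_const,
        Finset.prod_pow_eq_pow_sum]
      rfl
    rw [h5]
    obtain ⟨d, hd⟩ : ∃ d, n = d + dg T := ⟨n - dg T, by omega⟩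
    have h6 : n - dg T = d := by omega
    rw [h6]
    push_cast
    rw [hd, pow_add]
    have h7 : (Fintype.card k : ℂ) ^ dg T * ((Fintype.card k : ℂ)⁻¹) ^ dg T = 1 := by
      rw [← mul_pow, mul_inv_cancel₀ hq0, one_pow]
    linear_combination (-((-1 : ℂ) ^ T.card * (Fintype.card k : ℂ) ^ d)) * h7
  rw [Finset.sum_congr rfl h3, ← Finset.mul_sum, ← Finset.prod_add] at h1
  have h4 : ((((Fintype.card k : ℝ) ^ n * rho S : ℝ)) : ℂ) =
      (Fintype.card k : ℂ) ^ n * ∏ P ∈ S, (-((Fintype.card k : ℂ)⁻¹) ^ P.natDegree + 1) := by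
    unfold rho
    push_cast
    congr 1
    refine Finset.prod_congr rfl fun P _ => ?_
    ring
  rw [← h4] at h1
  have h5 : (((Cp S n).card : ℝ) : ℂ) = (((Fintype.card k : ℝ) ^ n * rho S : ℝ) : ℂ) := by
    rw [← h1]
    unfold Cp
    push_cast
    rfl
  exact_mod_cast h5

omit [Fintype k] in
theorem nat_pos {P : k[X]} (hP : Pr P) : 1 ≤ P.natDegree := hP.2.natDegree_pos

theorem three_le (h2 : (2 : k) ≠ 0) : 3 ≤ Fintype.card k := by
  classical
  have h1 : ({0, 1, 2} : Finset k).card = 3 := by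
    rw [Finset.card_insert_of_notMem, Finset.card_insert_of_notMem, Finset.card_singleton]
    · rw [Finset.mem_singleton]
      intro h
      have h3 : (1 : k) = 0 := by
        have e : (2 : k) = 1 + 1 := by norm_num
        rw [e] at h
        linear_combination -h
      exact one_ne_zero h3
    · rw [Finset.mem_insert, Finset.mem_singleton]
      rintro (h | h)
      · exact one_ne_zero h.symm
      · exact h2 h.symm
  rw [← h1]
  exact Finset.card_le_univ _

theorem rho_le (S : Finset k[X]) : rho S ≤ 1 := by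
  unfold rho
  refine Finset.prod_le_one (fun P _ => ?_) fun P _ => ?_
  · have h1 : ((Fintype.card k : ℝ)⁻¹) ^ P.natDegree ≤ 1 :=
      pow_le_one₀ (by positivity) (Nat.cast_inv_le_one _)
    linarith
  · have : 0 ≤ ((Fintype.card k : ℝ)⁻¹) ^ P.natDegree := by positivity
    linarith

theorem rho_ge (h2 : (2 : k) ≠ 0) {S : Finset k[X]} (hS : ∀ P ∈ S, Pr P) {β : ℕ} (hβ : dg S ≤ β) :
    (2 / 3 : ℝ) ^ β ≤ rho S := by
  have h3 : (3 : ℝ) ≤ Fintype.card k := by exact_mod_cast three_le h2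
  have h4 : (Fintype.card k : ℝ)⁻¹ ≤ 1 / 3 := by
    rw [one_div]
    exact inv_anti₀ (by norm_num) h3
  have h5 : ∀ P ∈ S, (2 / 3 : ℝ) ≤ 1 - ((Fintype.card k : ℝ)⁻¹) ^ P.natDegree := by
    intro P hP
    have h6 : ((Fintype.card k : ℝ)⁻¹) ^ P.natDegree ≤ ((Fintype.card k : ℝ)⁻¹) ^ 1 :=
      pow_le_pow_of_le_one (by positivity) (by linarith) (nat_pos (hS P hP))
    rw [pow_one] at h6
    linarith
  have h6 : S.card ≤ dg S := by
    unfold dg
    rw [Finset.card_eq_sum_ones]
    exact Finset.sum_le_sum fun P hP => nat_pos (hS P hP)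
  calc (2 / 3 : ℝ) ^ β ≤ (2 / 3 : ℝ) ^ S.card :=
        pow_le_pow_of_le_one (by norm_num) (by norm_num) (h6.trans hβ)
    _ = ∏ P ∈ S, (2 / 3 : ℝ) := by rw [Finset.prod_const]
    _ ≤ _ := Finset.prod_le_prod (fun _ _ => by norm_num) h5

/-- the polynomials with a square factor -/
theorem bad_card (S : Finset k[X]) (n : ℕ) [DecidablePred fun f : k[X] => ¬ Squarefree f] :
    ((Cp S n).filter fun f => ¬ Squarefree f).card ≤
      ∑ e ∈ Finset.Ico 1 (n / 2 + 1), Fintype.card k ^ e * (Cp S (n - 2 * e)).card := by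
  classical
  have h1 : ((Cp S n).filter fun f => ¬ Squarefree f) ⊆ (Finset.Ico 1 (n / 2 + 1)).biUnion fun e =>
      ((Mn k e) ×ˢ (Cp S (n - 2 * e))).image fun x => x.1 * x.1 * x.2 := by
    intro f hf
    rw [Finset.mem_filter, mem_Cp] at hf
    obtain ⟨⟨⟨hm, hn⟩, hc⟩, hs⟩ := hf
    unfold Squarefree at hs
    push Not at hs
    obtain ⟨x, hx, hu⟩ := hs
    have hx0 : x ≠ 0 := by
      rintro rfl
      rw [mul_zero, zero_dvd_iff] at hx
      exact hm.ne_zero hx
    obtain ⟨E, hE⟩ : ∃ E, E = x * C x.leadingCoeff⁻¹ := ⟨_, rfl⟩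
    have hEm : E.Monic := by rw [hE]; exact monic_mul_leadingCoeff_inv hx0
    have hl0 : x.leadingCoeff ≠ 0 := leadingCoeff_ne_zero.2 hx0
    have hunit : IsUnit (C x.leadingCoeff⁻¹ : k[X]) :=
      (isUnit_iff_ne_zero.2 (inv_ne_zero hl0)).map C
    have hass : Associated x E := by
      rw [hE]
      exact associated_mul_unit_right x _ hunit
    have hEf : E * E ∣ f := (hass.mul_mul hass).dvd_iff_dvd_left.1 hx
    have hEu : ¬ IsUnit E := fun h => hu (hass.isUnit_iff.2 h)
    have hEd : 1 ≤ E.natDegree := by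
      by_contra h
      have h3 : E.natDegree = 0 := by omega
      exact hEu (by rw [hEm.natDegree_eq_zero.1 h3]; exact isUnit_one)
    obtain ⟨D, hD⟩ := hEf
    have hDm : D.Monic := by
      rw [hD] at hm
      exact (hEm.mul hEm).of_mul_monic_left hm
    have hdeg : n = 2 * E.natDegree + D.natDegree := by
      rw [← hn, hD, (hEm.mul hEm).natDegree_mul hDm, hEm.natDegree_mul hEm]
      ring
    rw [Finset.mem_biUnion]
    refine ⟨E.natDegree, ?_, ?_⟩
    · rw [Finset.mem_Ico]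
      omega
    · rw [Finset.mem_image]
      refine ⟨(E, D), ?_, hD.symm⟩
      rw [Finset.mem_product, mem_Mn, mem_Cp]
      refine ⟨⟨hEm, rfl⟩, ⟨hDm, by
        change D.natDegree = n - 2 * E.natDegree
        omega⟩, fun P hP hPD => hc P hP ?_⟩
      rw [hD]
      exact Dvd.dvd.mul_left hPD _
  refine (Finset.card_le_card h1).trans (Finset.card_biUnion_le.trans ?_)
  refine Finset.sum_le_sum fun e _ => ?_
  refine Finset.card_image_le.trans (le_of_eq ?_)
  rw [Finset.card_product, card_Mn]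

theorem geo (m M : ℕ) : ∑ e ∈ Finset.Ico (m + 1) M, (1 / 3 : ℝ) ^ e ≤ (1 / 3 : ℝ) ^ m / 2 := by
  refine (geom_sum_Ico_le_of_lt_one (by norm_num) (by norm_num)).trans (le_of_eq ?_)
  rw [pow_succ]
  ring

theorem cnt : S_cnt := by
  classical
  intro β
  refine ⟨(2 / 3) ^ β / 4, 3 * β + 2, by positivity, ?_⟩
  intro k _ _ h2 S hS hβ n hn
  obtain ⟨q, hq⟩ : ∃ q : ℝ, q = Fintype.card k := ⟨_, rfl⟩
  have hq3 : 3 ≤ q := by rw [hq]; exact_mod_cast three_le h2
  have hq0 : 0 < q := by linarith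
  rw [← hq]
  obtain ⟨r, hr⟩ : ∃ r, r = rho S := ⟨_, rfl⟩
  have hr1 : r ≤ 1 := by rw [hr]; exact rho_le S
  have hr2 : (2 / 3 : ℝ) ^ β ≤ r := by rw [hr]; exact rho_ge h2 hS hβ
  have hr0 : 0 < r := lt_of_lt_of_le (by positivity) hr2
  -- the count as a count in `Cp`
  have hcard : (Finset.univ.filter fun c : Fin n → k => Squarefree (mon c) ∧ ∀ P ∈ S, ¬ P ∣ mon c).card =
      ((Cp S n).filter fun f => Squarefree f).card := by
    rw [← Finset.card_image_of_injective _ (mon_inj (k := k) (n := n))]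
    congr 1
    ext f
    rw [Finset.mem_image, Finset.mem_filter, mem_Cp]
    constructor
    · rintro ⟨c, hc, rfl⟩
      rw [Finset.mem_filter] at hc
      exact ⟨⟨⟨mon_monic c, mon_natDegree c⟩, hc.2.2⟩, hc.2.1⟩
    · rintro ⟨⟨⟨h3, h4⟩, h5⟩, h6⟩
      obtain ⟨c, rfl⟩ := exists_mon h3 h4
      exact ⟨c, Finset.mem_filter.2 ⟨Finset.mem_univ _, h6, h5⟩, rfl⟩
  have hsplit := Finset.card_filter_add_card_filter_not (s := Cp S n) (fun f => Squarefree f)
  have hbad := bad_card S n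
  have hall := card_Cp hS (n := n) (by omega)
  rw [← hq, ← hr] at hall
  rw [hcard]
  -- bound for the bad ones
  have hterm : ∀ e ∈ Finset.Ico 1 (n / 2 + 1), (q ^ e * ((Cp S (n - 2 * e)).card : ℝ) : ℝ) ≤
      q ^ n * (r * (1 / 3) ^ e + if β + 2 ≤ e then (1 / 3) ^ e else 0) := by
    intro e he
    rw [Finset.mem_Ico] at he
    have h3 : (1 / q) ^ e ≤ (1 / 3 : ℝ) ^ e :=
      pow_le_pow_left₀ (by positivity) (one_div_le_one_div_of_le (by norm_num) hq3) e
    have h4 : q ^ e * q ^ (n - 2 * e) = q ^ n * (1 / q) ^ e := by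
      have h5 : n = (n - 2 * e) + e + e := by omega
      have h6 : q ^ n = q ^ (n - 2 * e) * q ^ e * q ^ e := by
        conv_lhs => rw [h5]
        rw [pow_add, pow_add]
      rw [h6, one_div, inv_pow]
      field_simp
    have hqn : 0 < q ^ n := by positivity
    by_cases h5 : dg S ≤ n - 2 * e
    · have h6 := card_Cp hS h5
      rw [← hq, ← hr] at h6
      rw [h6]
      have h7 : (0 : ℝ) ≤ if β + 2 ≤ e then (1 / 3) ^ e else 0 := by
        split_ifs <;> positivity
      calc q ^ e * (q ^ (n - 2 * e) * r) = q ^ n * (r * (1 / q) ^ e) := by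
            linear_combination r * h4
        _ ≤ q ^ n * (r * (1 / 3) ^ e) := by gcongr
        _ ≤ _ := by
          refine mul_le_mul_of_nonneg_left ?_ hqn.le
          linarith
    · have h6 : β + 2 ≤ e := by omega
      rw [if_pos h6]
      have h7 : ((Cp S (n - 2 * e)).card : ℝ) ≤ q ^ (n - 2 * e) := by
        rw [hq]
        exact_mod_cast card_Cp_le S (n - 2 * e)
      calc q ^ e * ((Cp S (n - 2 * e)).card : ℝ) ≤ q ^ e * q ^ (n - 2 * e) := by gcongr
        _ = q ^ n * (1 / q) ^ e := h4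
        _ ≤ q ^ n * (1 / 3) ^ e := by gcongr
        _ ≤ _ := by
          refine mul_le_mul_of_nonneg_left ?_ hqn.le
          have : 0 ≤ r * (1 / 3 : ℝ) ^ e := by positivity
          linarith
  have hbad' : (((Cp S n).filter fun f => ¬ Squarefree f).card : ℝ) ≤
      q ^ n * (r / 2 + (1 / 3) ^ (β + 1) / 2) := by
    have h3 : (((Cp S n).filter fun f => ¬ Squarefree f).card : ℝ) ≤
        ∑ e ∈ Finset.Ico 1 (n / 2 + 1), q ^ e * ((Cp S (n - 2 * e)).card : ℝ) := by
      rw [hq]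
      exact_mod_cast hbad
    refine h3.trans ((Finset.sum_le_sum hterm).trans ?_)
    rw [← Finset.mul_sum, Finset.sum_add_distrib, ← Finset.mul_sum]
    refine mul_le_mul_of_nonneg_left ?_ (by positivity)
    have h4 := geo 0 (n / 2 + 1)
    rw [zero_add, pow_zero] at h4
    have h5 : ∑ e ∈ Finset.Ico 1 (n / 2 + 1), (if β + 2 ≤ e then (1 / 3 : ℝ) ^ e else 0) ≤
        (1 / 3) ^ (β + 1) / 2 := by
      rw [← Finset.sum_filter]
      refine le_trans (Finset.sum_le_sum_of_subset_of_nonneg (t := Finset.Ico (β + 1 + 1) (n / 2 + 1))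
        ?_ fun _ _ _ => by positivity) (geo (β + 1) (n / 2 + 1))
      intro e he
      rw [Finset.mem_filter, Finset.mem_Ico] at he
      rw [Finset.mem_Ico]
      omega
    have h6 : r * ∑ e ∈ Finset.Ico 1 (n / 2 + 1), (1 / 3 : ℝ) ^ e ≤ r * (1 / 2) :=
      mul_le_mul_of_nonneg_left h4 hr0.le
    linarith
  have hgood : (((Cp S n).filter fun f => Squarefree f).card : ℝ) =
      (Cp S n).card - (((Cp S n).filter fun f => ¬ Squarefree f).card : ℝ) := by
    rw [← hsplit]
    push_cast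
    ring
  rw [hgood, hall]
  have h3 : (1 / 3 : ℝ) ^ (β + 1) ≤ (2 / 3) ^ β / 2 := by
    have h4 : (1 / 3 : ℝ) ^ β ≤ (2 / 3) ^ β := pow_le_pow_left₀ (by norm_num) (by norm_num) β
    rw [pow_succ]
    have h5 : (0 : ℝ) < (1 / 3) ^ β := by positivity
    linarith
  have hqn : 0 < q ^ n := by positivity
  have h4 : q ^ n * (r / 2 + (1 / 3) ^ (β + 1) / 2) ≤ q ^ n * (r - (2 / 3) ^ β / 4) :=
    mul_le_mul_of_nonneg_left (by linarith) hqn.le
  nlinarith

end Pool.Agent.Q34.TW
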