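import Pool.Agent.Q34.TW.Base

set_option autoImplicit false

/-!
# The sum of a quadratic character over the monic polynomials of large degree is zero, and
inclusion and exclusion
-/

open Polynomial

namespace Pool.Agent.Q34.TW

open Q282TW

section

variable {k : Type} [Field k]

theorem leg_congr {P A B : k[X]} (h : P ∣ A - B) : leg P A = leg P B := by
  classical
  have h1 : P ∣ A ↔ P ∣ B := by
    constructor
    · intro h2
      have h3 := dvd_sub h2 h
      rwa [sub_sub_cancel] at h3
    · intro h2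
      have h3 := dvd_add h h2
      rwa [sub_add_cancel] at h3
  have h2 : (∃ C : k[X], P ∣ A - C ^ 2) ↔ ∃ C : k[X], P ∣ B - C ^ 2 := by
    constructor
    · rintro ⟨C, hC⟩
      refine ⟨C, ?_⟩
      have h3 := dvd_sub hC h
      have e : A - C ^ 2 - (A - B) = B - C ^ 2 := by ring
      rwa [e] at h3
    · rintro ⟨C, hC⟩
      refine ⟨C, ?_⟩
      have h3 := dvd_add hC h
      have e : B - C ^ 2 + (A - B) = A - C ^ 2 := by ring
      rwa [e] at h3
  unfold leg
  simp only [h1, h2]

variable [Fintype k]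

/-- the sum of the symbol over all residues -/
theorem sum_leg (h2 : (2 : k) ≠ 0) {P : k[X]} (hP : Pr P) (D : k[X]) {R : k[X]} (hR : ¬ P ∣ R) :
    ∑ t : Fin P.natDegree → k, leg P (D + R * pol t) = 0 := by
  classical
  have : Fact (Irreducible P) := ⟨hP.2⟩
  let K := AdjoinRoot P
  let mk : k[X] →+* K := AdjoinRoot.mk P
  have hmk : ∀ f : k[X], mk f = 0 ↔ P ∣ f := fun f => AdjoinRoot.mk_eq_zero
  have hsurj : Function.Surjective mk := AdjoinRoot.mk_surjective
  have hb : Function.Bijective fun t : Fin P.natDegree → k => mk (D + R * pol t) := by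
    constructor
    · intro t t' htt
      have h3 : mk (R * (pol t - pol t')) = 0 := by
        have e : R * (pol t - pol t') = (D + R * pol t) - (D + R * pol t') := by ring
        rw [e, map_sub, sub_eq_zero]
        exact htt
      rw [hmk] at h3
      have h4 : P ∣ pol t - pol t' := (hP.2.prime.dvd_or_dvd h3).resolve_left hR
      apply pol_inj
      by_contra hne
      have h5 : pol t - pol t' ≠ 0 := sub_ne_zero.2 hne
      have h6 := degree_le_of_dvd h4 h5
      have h7 := lt_of_le_of_lt (degree_sub_le (pol t) (pol t'))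
        (max_lt (pol_degree t) (pol_degree t'))
      rw [degree_eq_natDegree hP.2.ne_zero] at h6
      exact absurd h6 (not_le.2 h7)
    · intro x
      have hR0 : mk R ≠ 0 := fun h => hR ((hmk R).1 h)
      obtain ⟨A, hA⟩ := hsurj ((x - mk D) / mk R)
      have h3 : (A %ₘ P).degree < (P.natDegree : WithBot ℕ) := by
        rw [← degree_eq_natDegree hP.2.ne_zero]
        exact degree_modByMonic_lt A hP.1
      obtain ⟨t, ht⟩ := exists_pol h3
      refine ⟨t, ?_⟩
      change mk (D + R * pol t) = x
      have h4 : mk (pol t) = mk A := by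
        rw [ht, ← sub_eq_zero, ← map_sub, hmk]
        refine ⟨-(A /ₘ P), ?_⟩
        have := modByMonic_add_div A P
        linear_combination this
      rw [map_add, map_mul, h4, hA, mul_comm (mk R), div_mul_cancel₀ _ hR0, add_sub_cancel]
  let _ : Fintype K := Fintype.ofBijective _ hb
  have hq : ∀ f : k[X], leg P f = quadraticChar K (mk f) := by
    intro f
    rw [quadraticChar_apply, quadraticCharFun]
    unfold leg
    by_cases h3 : P ∣ f
    · rw [if_pos h3, if_pos ((hmk f).2 h3)]
    · rw [if_neg h3, if_neg fun h => h3 ((hmk f).1 h)]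
      have h4 : (∃ B : k[X], P ∣ f - B ^ 2) ↔ IsSquare (mk f) := by
        constructor
        · rintro ⟨B, hB⟩
          refine ⟨mk B, ?_⟩
          rw [← hmk, map_sub, map_pow, sub_eq_zero] at hB
          rw [hB, sq]
        · rintro ⟨x, hx⟩
          obtain ⟨B, rfl⟩ := hsurj x
          refine ⟨B, ?_⟩
          rw [← hmk, map_sub, map_pow, hx, sq, sub_self]
      by_cases h5 : IsSquare (mk f)
      · rw [if_pos (h4.2 h5), if_pos h5]
      · rw [if_neg (fun h => h5 (h4.1 h)), if_neg h5]
  have hchar : ringChar K ≠ 2 := by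
    intro h3
    have h4 : ((2 : ℕ) : K) = 0 := by
      rw [← h3]
      exact ringChar.Nat.cast_ringChar
    have h5 : mk (C 2) = 0 := by
      have e : (C 2 : k[X]) = ((2 : ℕ) : k[X]) := by
        rw [← C_eq_natCast]
        norm_num
      rw [e, map_natCast]
      exact h4
    rw [hmk] at h5
    exact hP.2.not_isUnit (isUnit_of_dvd_unit h5 ((isUnit_iff_ne_zero.2 h2).map C))
  rw [Finset.sum_congr rfl fun t _ => hq (D + R * pol t)]
  have h3 := Function.Bijective.sum_comp hb (fun x => quadraticChar K x)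
  rw [h3]
  exact quadraticChar_sum_zero hchar

theorem van_aux (h2 : (2 : k) ≠ 0) {S : Finset k[X]} (hS : ∀ P ∈ S, Pr P) (hne : S.Nonempty) {n : ℕ}
    (hn : dg S ≤ n) : ∑ f ∈ Mn k n, J S f = 0 := by
  classical
  obtain ⟨P, hPS⟩ := hne
  obtain ⟨T, hT⟩ : ∃ T, T = S.erase P := ⟨_, rfl⟩
  obtain ⟨R, hR⟩ : ∃ R : k[X], R = ∏ Q ∈ T, Q := ⟨_, rfl⟩
  have hTS : ∀ Q ∈ T, Pr Q := fun Q hQ => hS Q (by rw [hT] at hQ; exact Finset.mem_of_mem_erase hQ)
  have hPR : ¬ P ∣ R := by
    intro h
    rw [hR, (hS P hPS).2.prime.dvd_finsetProd_iff] at h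
    obtain ⟨Q, hQ, hPQ⟩ := h
    have h1 := (hS P hPS).2.associated_of_dvd (hTS Q hQ).2 hPQ
    have h3 := eq_of_monic_of_associated (hS P hPS).1 (hTS Q hQ).1 h1
    rw [hT, ← h3] at hQ
    exact absurd rfl (Finset.ne_of_mem_erase hQ)
  have hJ : ∀ f, J S f = leg P f * J T f := by
    intro f
    unfold J
    rw [hT, Finset.mul_prod_erase S (fun Q => leg Q f) hPS]
  have hdeg : P.natDegree + R.natDegree = dg S := by
    have h1 : R.natDegree = dg T := by rw [hR]; exact dg_eq T hTS
    rw [h1]
    unfold dg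
    rw [hT, Finset.add_sum_erase S (fun Q => Q.natDegree) hPS]
  have hRm : R.Monic := by rw [hR]; exact monic_prod T hTS
  -- translation
  have hshift : ∀ t : Fin P.natDegree → k,
      ∑ f ∈ Mn k n, J S (f + R * pol t) = ∑ f ∈ Mn k n, J S f := by
    intro t
    have hlt : (R * pol t).degree < (n : WithBot ℕ) := by
      rw [degree_mul]
      have h1 : R.degree = (R.natDegree : WithBot ℕ) := degree_eq_natDegree hRm.ne_zero
      rw [h1]
      have h3 := pol_degree t
      calc (R.natDegree : WithBot ℕ) + (pol t).degree < (R.natDegree : WithBot ℕ) + (P.natDegree : ℕ) :=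
            WithBot.add_lt_add_left (WithBot.coe_ne_bot) h3
        _ = ((R.natDegree + P.natDegree : ℕ) : WithBot ℕ) := by push_cast; rfl
        _ ≤ n := by
          have : R.natDegree + P.natDegree ≤ n := by omega
          exact_mod_cast this
    have hmaps : ∀ f ∈ Mn k n, f + R * pol t ∈ Mn k n := by
      intro f hf
      rw [mem_Mn] at hf ⊢
      have h1 : f.degree = (n : WithBot ℕ) := by rw [degree_eq_natDegree hf.1.ne_zero, hf.2]
      have h3 : (R * pol t).degree < f.degree := by rw [h1]; exact hlt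
      refine ⟨hf.1.add_of_left h3, ?_⟩
      apply natDegree_eq_of_degree_eq_some
      rw [degree_add_eq_left_of_degree_lt h3, h1]
    have hmaps' : ∀ f ∈ Mn k n, f - R * pol t ∈ Mn k n := by
      intro f hf
      rw [mem_Mn] at hf ⊢
      have h1 : f.degree = (n : WithBot ℕ) := by rw [degree_eq_natDegree hf.1.ne_zero, hf.2]
      have h3 : (-(R * pol t)).degree < f.degree := by rw [h1, degree_neg]; exact hlt
      rw [sub_eq_add_neg]
      refine ⟨hf.1.add_of_left h3, ?_⟩
      apply natDegree_eq_of_degree_eq_some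
      rw [degree_add_eq_left_of_degree_lt h3, h1]
    refine Finset.sum_bij' (fun f _ => f + R * pol t) (fun f _ => f - R * pol t) hmaps hmaps' ?_ ?_ ?_
    · intro f _
      ring
    · intro f _
      ring
    · intro f _
      rfl
  have hconst : ∀ (t : Fin P.natDegree → k) (f : k[X]), J T (f + R * pol t) = J T f := by
    intro t f
    unfold J
    refine Finset.prod_congr rfl fun Q hQ => leg_congr ?_
    rw [add_sub_cancel_left]
    refine Dvd.dvd.mul_right ?_ _
    rw [hR]
    exact Finset.dvd_prod_of_mem _ hQ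
  have h1 : ∑ t : Fin P.natDegree → k, ∑ f ∈ Mn k n, J S (f + R * pol t) = 0 := by
    rw [Finset.sum_comm]
    refine Finset.sum_eq_zero fun f _ => ?_
    have h3 : ∀ t : Fin P.natDegree → k, J S (f + R * pol t) = J T f * leg P (f + R * pol t) := by
      intro t
      rw [hJ, hconst, mul_comm]
    rw [Finset.sum_congr rfl fun t _ => h3 t, ← Finset.mul_sum, sum_leg h2 (hS P hPS) f hPR, mul_zero]
  rw [Finset.sum_congr rfl fun t _ => hshift t, Finset.sum_const, nsmul_eq_mul] at h1
  rcases mul_eq_zero.1 h1 with h3 | h3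
  · exfalso
    have h4 : (Finset.univ : Finset (Fin P.natDegree → k)).card ≠ 0 :=
      Finset.card_ne_zero_of_mem (Finset.mem_univ 0)
    exact h4 (by exact_mod_cast h3)
  · exact h3

end

theorem van : S_van := by
  intro k _ _ h2 S hS hne n hn
  have h1 := van_aux h2 hS hne hn
  rw [sum_mon (fun f => (J S f : ℂ))]
  exact_mod_cast h1

theorem cop : S_cop := by
  classical
  intro k _ _ S hS n h
  have h0 : ∀ f : k[X], (if ∀ P ∈ S, ¬ P ∣ f then h f else 0) =
      ∑ T ∈ S.powerset, (-1) ^ T.card * (if (∏ P ∈ T, P) ∣ f then h f else 0) := by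
    intro f
    have h1 : (if ∀ P ∈ S, ¬ P ∣ f then (1 : ℂ) else 0) =
        ∏ P ∈ S, ((if P ∣ f then (-1 : ℂ) else 0) + 1) := by
      by_cases h2 : ∀ P ∈ S, ¬ P ∣ f
      · rw [if_pos h2]
        symm
        refine Finset.prod_eq_one fun P hP => ?_
        rw [if_neg (h2 P hP), zero_add]
      · rw [if_neg h2]
        push Not at h2
        obtain ⟨P, hP, hPf⟩ := h2
        symm
        refine Finset.prod_eq_zero hP ?_
        rw [if_pos hPf]
        norm_num
    have h3 : (if ∀ P ∈ S, ¬ P ∣ f then h f else 0) =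
        (if ∀ P ∈ S, ¬ P ∣ f then (1 : ℂ) else 0) * h f := by
      split_ifs <;> simp
    rw [h3, h1, Finset.prod_add, Finset.sum_mul]
    refine Finset.sum_congr rfl fun T hT => ?_
    rw [Finset.prod_const_one, mul_one]
    have hTS : ∀ P ∈ T, Pr P := fun P hP => hS P (Finset.mem_powerset.1 hT hP)
    by_cases h4 : (∏ P ∈ T, P) ∣ f
    · rw [if_pos h4]
      rw [prod_dvd_iff hTS] at h4
      rw [Finset.prod_congr rfl fun P hP => if_pos (h4 P hP), Finset.prod_const]
    · rw [if_neg h4, mul_zero]
      rw [prod_dvd_iff hTS] at h4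
      push Not at h4
      obtain ⟨P, hP, hPf⟩ := h4
      rw [Finset.prod_eq_zero hP (if_neg hPf), zero_mul]
  rw [sum_mon (fun f => if ∀ P ∈ S, ¬ P ∣ f then h f else 0), Finset.sum_congr rfl fun f _ => h0 f,
    Finset.sum_comm, Finset.sum_filter]
  refine Finset.sum_congr rfl fun T hT => ?_
  have hTS : ∀ P ∈ T, Pr P := fun P hP => hS P (Finset.mem_powerset.1 hT hP)
  have hd := dg_eq T hTS
  rw [← Finset.mul_sum]
  by_cases h1 : dg T ≤ n
  · rw [if_pos h1]
    congr 1
    rw [← Finset.sum_filter, sum_dvd (monic_prod T hTS) (by rw [hd]; exact h1), hd,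
      sum_mon (fun f => h ((∏ P ∈ T, P) * f))]
  · rw [if_neg h1]
    rw [Finset.sum_eq_zero, mul_zero]
    intro f hf
    rw [if_neg (no_dvd (by rw [hd]; omega) hf)]

end Pool.Agent.Q34.TW
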